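import Mathlib
import Pool.Agent.Helper133.Brouwer

set_option autoImplicit false
open Filter Topology Metric Set

namespace Pool.Agent.H499.CI

/-! Schauder's theorem for a ball, from Brouwer's theorem. -/

section schauder

variable {Y : Type*} [NormedAddCommGroup Y] [NormedSpace ℝ Y]

/-- the radial retraction onto the closed unit ball about `x0` -/
noncomputable def retr (x0 x : Y) : Y := x0 + (max 1 ‖x - x0‖)⁻¹ • (x - x0)

theorem retr_mem (x0 x : Y) : retr x0 x ∈ closedBall x0 1 := by
  have h0 : (0 : ℝ) < max 1 ‖x - x0‖ := lt_max_of_lt_left one_pos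
  rw [mem_closedBall, dist_eq_norm, retr, add_sub_cancel_left, norm_smul, norm_inv,
    Real.norm_eq_abs, abs_of_pos h0, inv_mul_le_iff₀ h0, mul_one]
  exact le_max_right _ _

theorem retr_of_mem {x0 x : Y} (h : x ∈ closedBall x0 1) : retr x0 x = x := by
  rw [mem_closedBall, dist_eq_norm] at h
  rw [retr, max_eq_left h, inv_one, one_smul, add_sub_cancel]

theorem retr_continuous (x0 : Y) : Continuous (retr x0) := by
  unfold retr
  refine continuous_const.add (Continuous.smul (Continuous.inv₀ (by fun_prop) fun x => ?_) (by fun_prop))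
  exact (lt_max_of_lt_left one_pos).ne'

/-- weighted averages of points of a convex set -/
theorem avg_mem {ι : Type*} {D : Set Y} (hD : Convex ℝ D) (t : Finset ι) (w : ι → ℝ) (c : ι → Y)
    (hw : ∀ i ∈ t, 0 ≤ w i) (hpos : 0 < ∑ i ∈ t, w i) (hc : ∀ i ∈ t, 0 < w i → c i ∈ D) :
    ∑ i ∈ t, (w i / ∑ j ∈ t, w j) • c i ∈ D := by
  classical
  set W := ∑ j ∈ t, w j with hW
  have h1 : ∑ i ∈ t, (w i / W) • c i = ∑ i ∈ t with 0 < w i, (w i / W) • c i := by
    rw [Finset.sum_filter]
    refine Finset.sum_congr rfl fun i hi => ?_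
    split_ifs with h
    · rfl
    · have : w i = 0 := le_antisymm (not_lt.1 h) (hw i hi)
      rw [this, zero_div, zero_smul]
  have h2 : ∑ i ∈ t with 0 < w i, w i / W = 1 := by
    have : ∑ i ∈ t with 0 < w i, w i / W = ∑ i ∈ t, w i / W := by
      rw [Finset.sum_filter]
      refine Finset.sum_congr rfl fun i hi => ?_
      split_ifs with h
      · rfl
      · have : w i = 0 := le_antisymm (not_lt.1 h) (hw i hi)
        rw [this, zero_div]
    rw [this, ← Finset.sum_div, div_self hpos.ne']
  rw [h1]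
  refine hD.sum_mem (fun i hi => ?_) h2 fun i hi => ?_
  · rw [Finset.mem_filter] at hi
    exact div_nonneg hi.2.le hpos.le
  · rw [Finset.mem_filter] at hi
    exact hc i hi.1 hi.2

/-- approximate fixed points -/
theorem schauder_approx (x0 : Y) (F : Y → Y) (Q : Set Y) (hF : ContinuousOn F (closedBall x0 1))
    (hFQ : ∀ x ∈ closedBall x0 1, F x ∈ Q) (hQ : IsCompact Q) (hQD : Q ⊆ closedBall x0 1) (ε : ℝ)
    (hε : 0 < ε) : ∃ x ∈ closedBall x0 1, ‖F x - x‖ ≤ ε := by
  classical
  obtain ⟨t0, ht0Q, ht0f, ht0⟩ := hQ.finite_cover_balls hε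
  set t : Finset Y := ht0f.toFinset with ht
  have htm : ∀ c, c ∈ t ↔ c ∈ t0 := fun c => by rw [ht, Set.Finite.mem_toFinset]
  set w : Y → Y → ℝ := fun c y => max 0 (ε - ‖y - c‖) with hw
  have hw0 : ∀ c y, 0 ≤ w c y := fun c y => le_max_left _ _
  have hwc : ∀ c, Continuous (w c) := fun c => by rw [hw]; fun_prop
  set W : Y → ℝ := fun y => ∑ c ∈ t, w c y with hW
  have hWc : Continuous W := by rw [hW]; exact continuous_finsetSum _ fun c _ => hwc c
  have hWpos : ∀ y ∈ Q, 0 < W y := by
    intro y hy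
    have := ht0 hy
    rw [Set.mem_iUnion₂] at this
    obtain ⟨c, hc, hyc⟩ := this
    rw [mem_ball, dist_eq_norm] at hyc
    refine lt_of_lt_of_le (?_ : 0 < w c y) (Finset.single_le_sum (f := fun c => w c y)
      (fun c _ => hw0 c y) ((htm c).2 hc))
    exact lt_max_of_lt_right (by linarith)
  set P : Y → Y := fun y => ∑ c ∈ t, (w c y / W y) • c with hP
  have hPc : ContinuousOn P Q := by
    rw [hP]
    refine continuousOn_finsetSum _ fun c _ => ?_
    exact ((hwc c).continuousOn.div hWc.continuousOn fun y hy => (hWpos y hy).ne').smul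
      continuousOn_const
  have hPD : ∀ y ∈ Q, P y ∈ closedBall x0 1 := by
    intro y hy
    exact avg_mem (convex_closedBall x0 1) t (fun c => w c y) (fun c => c) (fun c _ => hw0 c y)
      (hWpos y hy) fun c hc _ => hQD (ht0Q ((htm c).1 hc))
  have hPy : ∀ y ∈ Q, ‖P y - y‖ ≤ ε := by
    intro y hy
    have := avg_mem (convex_closedBall y ε) t (fun c => w c y) (fun c => c) (fun c _ => hw0 c y)
      (hWpos y hy) (fun c hc hp => by
        rw [mem_closedBall, dist_comm, dist_eq_norm]
        have : 0 < max 0 (ε - ‖y - c‖) := hp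
        rcases lt_max_iff.1 this with h | h
        · exact absurd h (lt_irrefl _)
        · linarith)
    rw [mem_closedBall, dist_eq_norm] at this
    exact this
  -- the finite dimensional problem
  set E : Submodule ℝ Y := Submodule.span ℝ (t : Set Y) with hE
  have : FiniteDimensional ℝ E := FiniteDimensional.span_finset ℝ t
  have hPE : ∀ y, P y ∈ E := fun y => Submodule.sum_mem _ fun c hc =>
    Submodule.smul_mem _ _ (Submodule.subset_span hc)
  have hcont : Continuous fun e : E => P (F (retr x0 e)) := by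
    refine hPc.comp_continuous (hF.comp_continuous ((retr_continuous x0).comp continuous_subtype_val)
      fun e => retr_mem x0 _) fun e => hFQ _ (retr_mem x0 _)
  obtain ⟨e, he⟩ := Pool.Agent.Helper133.Brouwer.brouwer
    (fun e : E => (⟨P (F (retr x0 e)), hPE _⟩ : E)) (hcont.subtype_mk _) (‖x0‖ + 1) (by
      intro e
      have := hPD _ (hFQ _ (retr_mem x0 (e : Y)))
      rw [mem_closedBall, dist_eq_norm] at this
      calc ‖P (F (retr x0 e))‖ = ‖x0 + (P (F (retr x0 e)) - x0)‖ := by rw [add_sub_cancel]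
        _ ≤ ‖x0‖ + ‖P (F (retr x0 e)) - x0‖ := norm_add_le _ _
        _ ≤ ‖x0‖ + 1 := by linarith)
  have he' : P (F (retr x0 e)) = e := congrArg Subtype.val he
  have heD : (e : Y) ∈ closedBall x0 1 := he' ▸ hPD _ (hFQ _ (retr_mem x0 (e : Y)))
  refine ⟨e, heD, ?_⟩
  rw [retr_of_mem heD] at he'
  have := hPy _ (hFQ _ heD)
  rw [he', norm_sub_rev] at this
  exact this

theorem schauder (x0 : Y) (F : Y → Y) (Q : Set Y) (hF : ContinuousOn F (closedBall x0 1))
    (hFQ : ∀ x ∈ closedBall x0 1, F x ∈ Q) (hQ : IsCompact Q) (hQD : Q ⊆ closedBall x0 1) :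
    ∃ x ∈ closedBall x0 1, F x = x := by
  choose x hxD hx using fun n : ℕ => schauder_approx x0 F Q hF hFQ hQ hQD (1 / ((n : ℝ) + 1))
    (by positivity)
  obtain ⟨q, hq, φ, hφ, hlim⟩ := hQ.tendsto_subseq fun n => hFQ _ (hxD n)
  have h0 : Tendsto (fun n => F (x (φ n)) - x (φ n)) atTop (𝓝 0) := by
    rw [tendsto_zero_iff_norm_tendsto_zero]
    refine squeeze_zero (fun n => norm_nonneg _) (fun n => hx (φ n)) ?_
    exact tendsto_one_div_add_atTop_nhds_zero_nat.comp hφ.tendsto_atTop
  have h1 : Tendsto (fun n => x (φ n)) atTop (𝓝 q) := by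
    have := hlim.sub h0
    simpa using this
  refine ⟨q, hQD hq, ?_⟩
  have h2 : Tendsto (fun n => F (x (φ n))) atTop (𝓝 (F q)) :=
    (hF q (hQD hq)).tendsto.comp (tendsto_nhdsWithin_iff.2 ⟨h1, Eventually.of_forall fun n => hxD _⟩)
  exact tendsto_nhds_unique h2 hlim

end schauder

end Pool.Agent.H499.CI
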