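import Pool.Agent.H499.CI.A

set_option autoImplicit false
open Filter Topology Metric Set

namespace Pool.Agent.H499.CI

/-! Lomonosov's lemma. -/

variable {X : Type*} [NormedAddCommGroup X] [NormedSpace ℂ X]

/-- `A` has no nontrivial closed invariant subspace -/
def Trans (A : Subalgebra ℂ (X →L[ℂ] X)) : Prop :=
  ∀ M : Submodule ℂ X, IsClosed (M : Set X) → (∀ a ∈ A, ∀ x ∈ M, a x ∈ M) → M = ⊥ ∨ M = ⊤

theorem Trans.dense {A : Subalgebra ℂ (X →L[ℂ] X)} (hA : Trans A) {y : X} (hy : y ≠ 0) (x0 : X)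
    {ε : ℝ} (hε : 0 < ε) : ∃ a ∈ A, ‖a y - x0‖ < ε := by
  set ev : (X →L[ℂ] X) →ₗ[ℂ] X := (ContinuousLinearMap.apply ℂ X y).toLinearMap with hev
  set O : Submodule ℂ X := A.toSubmodule.map ev with hO
  have hmem : ∀ z, z ∈ O ↔ ∃ a ∈ A, a y = z := by
    intro z
    rw [hO, Submodule.mem_map]
    rfl
  have hinv : ∀ a ∈ A, ∀ x ∈ O.topologicalClosure, a x ∈ O.topologicalClosure := by
    intro a ha x hx
    have h1 : MapsTo a (O : Set X) (O : Set X) := by
      intro z hz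
      obtain ⟨b, hb, rfl⟩ := (hmem z).1 hz
      exact (hmem _).2 ⟨a * b, A.mul_mem ha hb, rfl⟩
    exact h1.closure a.continuous hx
  have hne : O.topologicalClosure ≠ ⊥ := by
    intro h
    have : y ∈ O.topologicalClosure := O.le_topologicalClosure ((hmem y).2 ⟨1, A.one_mem, rfl⟩)
    rw [h, Submodule.mem_bot] at this
    exact hy this
  have htop := (hA O.topologicalClosure O.isClosed_topologicalClosure hinv).resolve_left hne
  have hx0 : x0 ∈ closure (O : Set X) := by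
    have : x0 ∈ O.topologicalClosure := by rw [htop]; trivial
    exact this
  obtain ⟨z, hz, hd⟩ := Metric.mem_closure_iff.1 hx0 ε hε
  obtain ⟨a, ha, rfl⟩ := (hmem z).1 hz
  exact ⟨a, ha, by rw [← dist_eq_norm, dist_comm]; exact hd⟩

/-- **Lomonosov's lemma.** -/
theorem lomonosov {A : Subalgebra ℂ (X →L[ℂ] X)} (hA : Trans A) {K : X →L[ℂ] X}
    (hK : IsCompactOperator K) (hK0 : K ≠ 0) : ∃ a ∈ A, ∃ x : X, x ≠ 0 ∧ a (K x) = x := by
  classical
  have hKn : 0 < ‖K‖ := norm_pos_iff.2 hK0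
  obtain ⟨x₀, hx₀⟩ : ∃ x₀ : X, ‖K‖ < ‖K x₀‖ := by
    obtain ⟨v, hv⟩ : ∃ v, K v ≠ 0 := by
      by_contra h
      push Not at h
      exact hK0 (ContinuousLinearMap.ext h)
    have hv' : 0 < ‖K v‖ := norm_pos_iff.2 hv
    refine ⟨(((2 * ‖K‖ / ‖K v‖ : ℝ)) : ℂ) • v, ?_⟩
    rw [map_smul, norm_smul, Complex.norm_real, Real.norm_eq_abs, abs_of_pos (by positivity),
      div_mul_cancel₀ _ hv'.ne']
    linarith
  set δ := ‖K x₀‖ - ‖K‖ with hδ
  have hδ0 : 0 < δ := by linarith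
  set C := closure (K '' closedBall x₀ 1) with hC
  have hCc : IsCompact C := hK.isCompact_closure_image_of_bounded isBounded_closedBall
  have hfar : ∀ x ∈ closedBall x₀ 1, δ ≤ ‖K x‖ := by
    intro x hx
    rw [mem_closedBall, dist_eq_norm] at hx
    have h1 : ‖K (x - x₀)‖ ≤ ‖K‖ := (K.le_opNorm _).trans (by nlinarith)
    have h2 : ‖K x₀‖ ≤ ‖K x‖ + ‖K (x - x₀)‖ := by
      calc ‖K x₀‖ = ‖K x - K (x - x₀)‖ := by rw [map_sub]; congr 1; abel
        _ ≤ _ := norm_sub_le _ _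
    linarith
  have hCfar : ∀ y ∈ C, δ ≤ ‖y‖ := by
    have : C ⊆ {y | δ ≤ ‖y‖} :=
      closure_minimal (by rintro _ ⟨x, hx, rfl⟩; exact hfar x hx)
        (isClosed_le continuous_const continuous_norm)
    exact this
  have hx0far : (0 : X) ∉ closedBall x₀ 1 := fun h => by
    have := hfar 0 h
    rw [map_zero, norm_zero] at this
    linarith
  obtain ⟨t, ht⟩ := hCc.elim_finite_subcover (fun a : A => {y : X | ‖(a : X →L[ℂ] X) y - x₀‖ < 1})
    (fun a => isOpen_lt (by fun_prop) continuous_const) (by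
      intro y hy
      have hy0 : y ≠ 0 := fun h => by
        have := hCfar y hy
        rw [h, norm_zero] at this
        linarith
      obtain ⟨a, ha, h⟩ := hA.dense hy0 x₀ one_pos
      exact Set.mem_iUnion.2 ⟨⟨a, ha⟩, h⟩)
  set w : A → X → ℝ := fun a y => max 0 (1 - ‖(a : X →L[ℂ] X) y - x₀‖) with hw
  have hw0 : ∀ a y, 0 ≤ w a y := fun a y => le_max_left _ _
  have hwc : ∀ a, Continuous (w a) := fun a => by rw [hw]; fun_prop
  set W : X → ℝ := fun y => ∑ a ∈ t, w a y with hW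
  have hWc : Continuous W := by rw [hW]; exact continuous_finsetSum _ fun c _ => hwc c
  have hWpos : ∀ y ∈ C, 0 < W y := by
    intro y hy
    have := ht hy
    rw [Set.mem_iUnion₂] at this
    obtain ⟨a, ha, hya⟩ := this
    have hya' : ‖(a : X →L[ℂ] X) y - x₀‖ < 1 := hya
    refine lt_of_lt_of_le (?_ : 0 < w a y) (Finset.single_le_sum (f := fun a => w a y)
      (fun a _ => hw0 a y) ha)
    exact lt_max_of_lt_right (by linarith)
  set g : X → X := fun y => ∑ a ∈ t, (w a y / W y) • (a : X →L[ℂ] X) y with hg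
  have hgc : ContinuousOn g C := by
    rw [hg]
    refine continuousOn_finsetSum _ fun a _ => ?_
    exact ((hwc a).continuousOn.div hWc.continuousOn fun y hy => (hWpos y hy).ne').smul
      (a : X →L[ℂ] X).continuous.continuousOn
  have hgD : ∀ y ∈ C, g y ∈ closedBall x₀ 1 := by
    intro y hy
    exact avg_mem (convex_closedBall x₀ 1) t (fun a => w a y) (fun a => (a : X →L[ℂ] X) y)
      (fun a _ => hw0 a y) (hWpos y hy) (fun a _ hp => by
        rw [mem_closedBall, dist_eq_norm]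
        have : 0 < max 0 (1 - ‖(a : X →L[ℂ] X) y - x₀‖) := hp
        rcases lt_max_iff.1 this with h | h
        · exact absurd h (lt_irrefl _)
        · linarith)
  have hKC : ∀ x ∈ closedBall x₀ 1, K x ∈ C := fun x hx => subset_closure ⟨x, hx, rfl⟩
  obtain ⟨x, hxD, hx⟩ := schauder x₀ (fun x => g (K x)) (g '' C)
    (hgc.comp K.continuous.continuousOn hKC) (fun x hx => ⟨K x, hKC x hx, rfl⟩)
    (hCc.image_of_continuousOn hgc) (by rintro _ ⟨y, hy, rfl⟩; exact hgD y hy)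
  refine ⟨∑ a ∈ t, ((w a (K x) / W (K x) : ℝ) : ℂ) • (a : X →L[ℂ] X),
    A.sum_mem fun a _ => A.smul_mem a.2 _, x, fun h => hx0far (h ▸ hxD), ?_⟩
  rw [_root_.sum_apply]
  conv_rhs => rw [← hx]
  refine Finset.sum_congr rfl fun a _ => ?_
  rw [_root_.smul_apply, Complex.coe_smul]

end Pool.Agent.H499.CI
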