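import Pool.Agent.H499.CI.B

set_option autoImplicit false
open Filter Topology Metric Set

namespace Pool.Agent.H499.CI

/-! The part of a compact operator where it is expanding is finite dimensional. -/

variable {X : Type*} [NormedAddCommGroup X] [NormedSpace ℂ X]

/-- towers of subspaces built from generalised eigenvectors for eigenvalues of modulus at
least `ε` -/
inductive Tower (B : X →L[ℂ] X) (ε : ℝ) : ℕ → Submodule ℂ X → Prop
  | zero : Tower B ε 0 ⊥
  | succ {n : ℕ} {F : Submodule ℂ X} {v : X} {l : ℂ} : Tower B ε n F → v ∉ F → ε ≤ ‖l‖ →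
      B v - l • v ∈ F → Tower B ε (n + 1) (F ⊔ ℂ ∙ v)

theorem Tower.fin {B : X →L[ℂ] X} {ε : ℝ} {n : ℕ} {F : Submodule ℂ X} (h : Tower B ε n F) :
    FiniteDimensional ℂ F := by
  induction h with
  | zero => infer_instance
  | succ _ _ _ _ ih => infer_instance

theorem Tower.inv {B : X →L[ℂ] X} {ε : ℝ} {n : ℕ} {F : Submodule ℂ X} (h : Tower B ε n F) :
    ∀ x ∈ F, B x ∈ F := by
  induction h with
  | zero =>
    intro x hx
    rw [Submodule.mem_bot] at hx
    rw [hx, map_zero]
    exact Submodule.zero_mem _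
  | @succ n F v l hF hv hl hBv ih =>
    intro x hx
    obtain ⟨f, hf, z, hz, rfl⟩ := Submodule.mem_sup.1 hx
    obtain ⟨c, rfl⟩ := Submodule.mem_span_singleton.1 hz
    have h1 : B (f + c • v) = (B f + c • (B v - l • v)) + (c * l) • v := by
      rw [map_add, map_smul, smul_sub, smul_smul]; abel
    rw [h1]
    exact Submodule.add_mem_sup (F.add_mem (ih f hf) (F.smul_mem c hBv))
      (Submodule.smul_mem _ _ (Submodule.mem_span_singleton_self v))

/-- separated images of unit vectors -/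
theorem Tower.sep {B : X →L[ℂ] X} {ε : ℝ} {n : ℕ} {F : Submodule ℂ X} (h : Tower B ε n F) :
    ∃ S : Finset X, S.card = n ∧ (∀ x ∈ S, x ∈ F ∧ ‖x‖ ≤ 1) ∧
      ∀ x ∈ S, ∀ y ∈ S, x ≠ y → ε / 2 ≤ ‖B x - B y‖ := by
  classical
  induction h with
  | zero => exact ⟨∅, rfl, by simp, by simp⟩
  | @succ n F v l hF hv hl hBv ih =>
    obtain ⟨S, hSc, hS1, hS2⟩ := ih
    have := hF.fin
    have hcl : IsClosed (F : Set X) := F.closed_of_finiteDimensional
    -- a nearly closest point
    have hd0 : 0 < infDist v F := (hcl.notMem_iff_infDist_pos ⟨0, F.zero_mem⟩).1 hv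
    obtain ⟨f, hf, hfd⟩ := (infDist_lt_iff (s := (F : Set X)) (x := v) (r := 2 * infDist v F)
      ⟨0, F.zero_mem⟩).1 (by linarith)
    have hvf : 0 < ‖v - f‖ := by
      rw [norm_pos_iff, sub_ne_zero]
      rintro rfl
      exact hv hf
    set α : ℂ := ((‖v - f‖⁻¹ : ℝ) : ℂ) with hα
    have hαn : ‖α‖ = ‖v - f‖⁻¹ := by
      rw [hα, Complex.norm_real, Real.norm_eq_abs, abs_of_pos (inv_pos.2 hvf)]
    have hα0 : α ≠ 0 := by
      rw [← norm_pos_iff, hαn]; positivity
    set e : X := α • (v - f) with he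
    have hen : ‖e‖ = 1 := by
      rw [he, norm_smul, hαn, inv_mul_cancel₀ hvf.ne']
    have hdist : ∀ z ∈ F, 1 / 2 ≤ ‖e - z‖ := by
      intro z hz
      have h1 : e - z = α • (v - (f + α⁻¹ • z)) := by
        rw [he, smul_sub, smul_sub, smul_add, smul_smul, mul_inv_cancel₀ hα0, one_smul]; abel
      have h2 : infDist v F ≤ ‖v - (f + α⁻¹ • z)‖ := by
        rw [← dist_eq_norm]
        exact infDist_le_dist_of_mem (F.add_mem hf (F.smul_mem _ hz))
      rw [h1, norm_smul, hαn]
      rw [dist_eq_norm] at hfd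
      rw [inv_mul_eq_div, le_div_iff₀ hvf]
      linarith
    have hBe : B e - l • e ∈ F := by
      have : B e - l • e = α • (B v - l • v) - α • (B f - l • f) := by
        rw [he, map_smul, map_sub]
        simp only [smul_sub, smul_smul, mul_comm l α]
        abel
      rw [this]
      exact F.sub_mem (F.smul_mem _ hBv) (F.smul_mem _ (F.sub_mem (hF.inv f hf) (F.smul_mem _ hf)))
    have hsep : ∀ y ∈ S, ε / 2 ≤ ‖B e - B y‖ := by
      intro y hy
      have hyF := hF.inv y (hS1 y hy).1
      by_cases hl0 : l = 0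
      · rw [hl0, norm_zero] at hl
        have := norm_nonneg (B e - B y)
        linarith
      have h1 : B e - B y = l • (e - l⁻¹ • (B y - (B e - l • e))) := by
        rw [smul_sub l e, smul_inv_smul₀ hl0]; abel
      rw [h1, norm_smul]
      have h2 := hdist (l⁻¹ • (B y - (B e - l • e))) (F.smul_mem _ (F.sub_mem hyF hBe))
      have h3 := norm_nonneg l
      nlinarith
    have heS : e ∉ S := by
      intro h
      have := hdist e (hS1 e h).1
      rw [sub_self, norm_zero] at this
      linarith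
    refine ⟨insert e S, by rw [Finset.card_insert_of_notMem heS, hSc], ?_, ?_⟩
    · intro x hx
      rcases Finset.mem_insert.1 hx with rfl | hx
      · refine ⟨?_, hen.le⟩
        have : α • (v - f) = (-(α • f)) + α • v := by rw [smul_sub]; abel
        rw [he, this]
        exact Submodule.add_mem_sup (F.neg_mem (F.smul_mem _ hf))
          (Submodule.smul_mem _ _ (Submodule.mem_span_singleton_self v))
      · exact ⟨Submodule.mem_sup_left (hS1 x hx).1, (hS1 x hx).2⟩
    · intro x hx y hy hxy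
      rcases Finset.mem_insert.1 hx with rfl | hx <;> rcases Finset.mem_insert.1 hy with rfl | hy
      · exact absurd rfl hxy
      · exact hsep y hy
      · rw [norm_sub_rev]; exact hsep x hx
      · exact hS2 x hx y hy hxy

theorem Tower.bound {B : X →L[ℂ] X} (hB : IsCompactOperator B) {ε : ℝ} (hε : 0 < ε) :
    ∃ d : ℕ, ∀ n F, Tower B ε n F → n ≤ d := by
  classical
  have hC : IsCompact (closure (B '' closedBall 0 1)) :=
    hB.isCompact_closure_image_of_bounded isBounded_closedBall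
  obtain ⟨t, htC, htf, ht⟩ := hC.finite_cover_balls (show 0 < ε / 4 by linarith)
  refine ⟨htf.toFinset.card, fun n F h => ?_⟩
  obtain ⟨S, hSc, hS1, hS2⟩ := h.sep
  rw [← hSc]
  have hex : ∀ x ∈ S, ∃ c ∈ t, B x ∈ ball c (ε / 4) := by
    intro x hx
    have : B x ∈ closure (B '' closedBall 0 1) :=
      subset_closure ⟨x, by rw [mem_closedBall, dist_zero_right]; exact (hS1 x hx).2, rfl⟩
    have := ht this
    rw [Set.mem_iUnion₂] at this
    obtain ⟨c, hc, h⟩ := this
    exact ⟨c, hc, h⟩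
  choose! c hc hcb using hex
  refine Finset.card_le_card_of_injOn c (fun x hx => by
    rw [Finset.mem_coe, Set.Finite.mem_toFinset]; exact hc x hx) ?_
  intro x hx y hy hxy
  by_contra hne
  have h1 := hS2 x hx y hy hne
  have h2 := hcb x hx
  have h3 := hcb y hy
  rw [mem_ball, dist_eq_norm] at h2 h3
  rw [← hxy] at h3
  have h4 : ‖B x - B y‖ ≤ ‖B x - c x‖ + ‖B y - c x‖ := by
    calc ‖B x - B y‖ = ‖(B x - c x) - (B y - c x)‖ := by congr 1; abel
      _ ≤ _ := norm_sub_le _ _
  linarith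

variable [CompleteSpace X]

/-- eigenvalues control the powers of a compact operator -/
theorem pow_small {D : X →L[ℂ] X} (hD : IsCompactOperator D) {ε : ℝ} (hε : 0 < ε)
    (h : ∀ (c : ℂ) (v : X), v ≠ 0 → D v = c • v → ‖c‖ < ε) : ∀ᶠ n : ℕ in atTop, ‖D ^ n‖ ≤ ε ^ n := by
  rcases subsingleton_or_nontrivial X with hX | hX
  · refine Eventually.of_forall fun n => ?_
    have : D ^ n = 0 := by ext x; exact Subsingleton.elim _ _
    rw [this, norm_zero]; positivity
  have hrad : spectralRadius ℂ D < ENNReal.ofReal ε := by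
    obtain ⟨c, hc, hcr⟩ := spectrum.exists_nnnorm_eq_spectralRadius D
    rw [← hcr]
    rw [ENNReal.lt_ofReal_iff_toReal_lt ENNReal.coe_ne_top]
    show ‖c‖ < ε
    by_cases hc0 : c = 0
    · rw [hc0, norm_zero]; exact hε
    · have h1 := (IsCompactOperator.hasEigenvalue_iff_mem_spectrum hD hc0).2 hc
      obtain ⟨v, hv⟩ := h1.exists_hasEigenvector
      exact h c v hv.2 (by simpa using hv.apply_eq_smul)
  have hlim := spectrum.pow_norm_pow_one_div_tendsto_nhds_spectralRadius D
  have hev := hlim.eventually (gt_mem_nhds hrad)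
  filter_upwards [hev, eventually_gt_atTop 0] with n hn1 hn2
  have h3 : ‖D ^ n‖ ^ (1 / n : ℝ) < ε := (ENNReal.ofReal_lt_ofReal_iff hε).1 hn1
  have h5 := pow_lt_pow_left₀ h3 (by positivity) (by omega : n ≠ 0)
  rw [← Real.rpow_natCast (‖D ^ n‖ ^ (1 / n : ℝ)) n, ← Real.rpow_mul (norm_nonneg _),
    one_div_mul_cancel (by positivity : (n : ℝ) ≠ 0), Real.rpow_one] at h5
  exact h5.le

/-- For a compact operator `B` and a number `ρ` there is a finite dimensional space which contains
`y 0` for every sequence with `y 0 = B^n (y n)` and `‖y n‖ ≤ C ρ^n` infinitely often. -/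
theorem exists_fin {B : X →L[ℂ] X} (hB : IsCompactOperator B) {ρ : ℝ} (hρ : 0 < ρ) :
    ∃ F : Submodule ℂ X, FiniteDimensional ℂ F ∧ ∀ (y : ℕ → X) (C : ℝ),
      (∀ n, (B ^ n) (y n) = y 0) → (∃ᶠ n : ℕ in atTop, ‖y n‖ ≤ C * ρ ^ n) → y 0 ∈ F := by
  classical
  set ε : ℝ := 1 / (2 * ρ) with hε
  have hε0 : 0 < ε := by positivity
  obtain ⟨d, hd⟩ := Tower.bound hB hε0
  -- a tower of maximal height
  obtain ⟨N, ⟨F, hF⟩, hmax⟩ : ∃ N, (∃ F, Tower B ε N F) ∧ ∀ n, (∃ F, Tower B ε n F) → n ≤ N := by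
    have hne : ∃ n, (∃ F, Tower B ε n F) := ⟨0, ⊥, Tower.zero⟩
    refine ⟨Nat.findGreatest (fun n => ∃ F, Tower B ε n F) d, ?_, ?_⟩
    · exact Nat.findGreatest_spec (P := fun n => ∃ F, Tower B ε n F) (Nat.zero_le d) ⟨⊥, Tower.zero⟩
    · intro n hn
      obtain ⟨F, hF⟩ := hn
      exact Nat.le_findGreatest (hd n F hF) ⟨F, hF⟩
  have := hF.fin
  obtain ⟨f, hf⟩ := Submodule.ClosedComplemented.of_finiteDimensional F
  set P : X →L[ℂ] X := 1 - F.subtypeL ∘L f with hP
  have hPx : ∀ x, P x = x - f x := fun x => rfl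
  have hPF : ∀ x ∈ F, P x = 0 := by
    intro x hx
    rw [hPx, hf ⟨x, hx⟩]
    simp
  have hFP : ∀ x, P x = 0 → x ∈ F := by
    intro x hx
    rw [hPx, sub_eq_zero] at hx
    rw [hx]; exact (f x).2
  have hPP : ∀ x, P x - x ∈ F := by
    intro x
    rw [hPx, sub_sub_cancel_left]
    exact F.neg_mem (f x).2
  have hPB : ∀ x, P (B (P x)) = P (B x) := by
    intro x
    have := hPF _ (hF.inv _ (hPP x))
    rw [map_sub, map_sub, sub_eq_zero] at this
    exact this
  set D : X →L[ℂ] X := P * B with hD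
  have hDn : ∀ n x, (D ^ n) (P x) = P ((B ^ n) x) := by
    intro n
    induction n with
    | zero => intro x; simp
    | succ n ih =>
      intro x
      rw [pow_succ', pow_succ']
      show P (B ((D ^ n) (P x))) = P (B ((B ^ n) x))
      rw [ih, hPB]
  have hDc : IsCompactOperator D := hB.clm_comp P
  have hDe : ∀ (c : ℂ) (v : X), v ≠ 0 → D v = c • v → ‖c‖ < ε := by
    intro c v hv hc
    by_contra hcε
    rw [not_lt] at hcε
    have hc0 : c ≠ 0 := by
      rintro rfl
      rw [norm_zero] at hcε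
      linarith
    have hc' : P (B v) = c • v := hc
    have hvF : v ∉ F := by
      intro h
      have := hPF _ (hF.inv v h)
      rw [hc'] at this
      exact hv ((smul_eq_zero.1 this).resolve_left hc0)
    have hBv : B v - c • v ∈ F := by
      have := hPP (B v)
      rw [hc'] at this
      rw [← neg_sub]
      exact F.neg_mem this
    have := hmax (N + 1) ⟨_, Tower.succ hF hvF hcε hBv⟩
    omega
  have hsmall := pow_small hDc hε0 hDe
  refine ⟨F, hF.fin, fun y C hy hfr => hFP _ ?_⟩
  have hfr2 : ∃ᶠ n : ℕ in atTop, ‖P (y 0)‖ ≤ (‖P‖ * |C|) * (1 / 2) ^ n := by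
    refine (hfr.and_eventually hsmall).mono fun n hn => ?_
    rw [← hy n, ← hDn]
    calc ‖(D ^ n) (P (y n))‖ ≤ ‖D ^ n‖ * (‖P‖ * ‖y n‖) :=
          ((D ^ n).le_opNorm _).trans (mul_le_mul_of_nonneg_left (P.le_opNorm _) (norm_nonneg _))
      _ ≤ ε ^ n * (‖P‖ * (|C| * ρ ^ n)) := by
          have h2 : ‖y n‖ ≤ |C| * ρ ^ n :=
            hn.1.trans (mul_le_mul_of_nonneg_right (le_abs_self C) (by positivity))
          have := hn.2
          gcongr
      _ = (‖P‖ * |C|) * (1 / 2) ^ n := by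
          rw [hε, div_pow, one_pow, mul_pow]
          field_simp
          rw [one_div, inv_pow]
          field_simp
  have hlim : Tendsto (fun n : ℕ => (‖P‖ * |C|) * (1 / 2 : ℝ) ^ n) atTop (𝓝 0) := by
    have := (tendsto_pow_atTop_nhds_zero_of_lt_one (r := (1 / 2 : ℝ)) (by norm_num)
      (by norm_num)).const_mul (‖P‖ * |C|)
    rwa [mul_zero] at this
  by_contra hne
  have hpos : 0 < ‖P (y 0)‖ := norm_pos_iff.2 hne
  have := hfr2.and_eventually (hlim.eventually (gt_mem_nhds hpos))
  obtain ⟨n, hn1, hn2⟩ := this.exists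
  linarith

end Pool.Agent.H499.CI
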