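import Pool.Agent.H499.CI.C

set_option autoImplicit false
open Filter Topology Metric Set

namespace Pool.Agent.H499.CI

variable {X : Type*} [NormedAddCommGroup X] [NormedSpace ℂ X]

/-- `p` commutes with all elements of `A` -/
def Com (A : Subalgebra ℂ (X →L[ℂ] X)) (p : X →L[ℂ] X) : Prop := ∀ a ∈ A, a * p = p * a

theorem Trans.eq_zero {A : Subalgebra ℂ (X →L[ℂ] X)} (hA : Trans A) {p : X →L[ℂ] X}
    (hp : Com A p) {x : X} (hx : x ≠ 0) (h : p x = 0) : p = 0 := by
  have h1 := hA (LinearMap.ker (p : X →ₗ[ℂ] X)) p.isClosed_ker (fun a ha y hy => by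
    have hy' : p y = 0 := hy
    show p (a y) = 0
    have : p (a y) = a (p y) := (DFunLike.congr_fun (hp a ha) y).symm
    rw [this, hy', map_zero])
  rcases h1 with h1 | h1
  · exfalso
    have : x ∈ LinearMap.ker (p : X →ₗ[ℂ] X) := h
    rw [h1, Submodule.mem_bot] at this
    exact hx this
  · ext y
    have : y ∈ LinearMap.ker (p : X →ₗ[ℂ] X) := by rw [h1]; trivial
    exact this

theorem Trans.eq_zero_of_mul {A : Subalgebra ℂ (X →L[ℂ] X)} (hA : Trans A) {K p : X →L[ℂ] X}
    (hK0 : K ≠ 0) (hp : Com A p) (h : K * p = 0) : p = 0 := by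
  by_contra hne
  obtain ⟨y, hy⟩ : ∃ y, p y ≠ 0 := by
    by_contra hcon
    push Not at hcon
    exact hne (ContinuousLinearMap.ext hcon)
  apply hK0
  ext z
  show K z = 0
  rw [← norm_le_zero_iff]
  refine le_of_forall_pos_le_add fun δ hδ => ?_
  rw [zero_add]
  obtain ⟨a, ha, haz⟩ := hA.dense hy z (show 0 < δ / (‖K‖ + 1) by positivity)
  have h1 : K (a (p y)) = 0 := by
    have h2 : a (p y) = p (a y) := DFunLike.congr_fun (hp a ha) y
    rw [h2]
    exact DFunLike.congr_fun h (a y)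
  have h3 : K z = -K (a (p y) - z) := by rw [map_sub, h1]; simp
  rw [h3, norm_neg]
  calc ‖K (a (p y) - z)‖ ≤ ‖K‖ * ‖a (p y) - z‖ := K.le_opNorm _
    _ ≤ (‖K‖ + 1) * (δ / (‖K‖ + 1)) := by
        gcongr
        linarith
    _ = δ := by field_simp

theorem Trans.scalar {A : Subalgebra ℂ (X →L[ℂ] X)} (hA : Trans A) {N : X →L[ℂ] X}
    (hN : Com A N) {x : X} (hx : x ≠ 0) {c : ℂ} (h : N x = c • x) : N = c • 1 := by
  rw [← sub_eq_zero]
  refine hA.eq_zero (fun a ha => ?_) hx ?_
  · rw [mul_sub, sub_mul, hN a ha, smul_mul_assoc, mul_smul_comm, one_mul, mul_one]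
  · show N x - c • x = 0
    rw [h, sub_self]

variable [CompleteSpace X]

theorem final1 {A : Subalgebra ℂ (X →L[ℂ] X)} (hA : Trans A) {K : X →L[ℂ] X}
    (hK : IsCompactOperator K) (hK0 : K ≠ 0) {N : X →L[ℂ] X} (hN : Com A N) {l : ℂ}
    (h : N * K = l • (K * N)) : ∃ c : ℂ, N = c • 1 := by
  classical
  rcases le_or_gt ‖l‖ 1 with hl | hl
  · obtain ⟨a, ha, x, hx, hax⟩ := lomonosov hA hK hK0
    set B := a * K with hB
    have hBc : IsCompactOperator B := hK.clm_comp a
    have hBx : B x = x := hax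
    have hNB : N * B = l • (B * N) := by
      rw [hB, ← mul_assoc, ← hN a ha, mul_assoc, h, mul_smul_comm, mul_assoc]
    obtain ⟨F, hFf, hF⟩ := exists_fin hBc one_pos
    have hBn : ∀ n : ℕ, (B ^ n) x = x := by
      intro n
      induction n with
      | zero => simp
      | succ n ih => rw [pow_succ]; show (B ^ n) (B x) = x; rw [hBx, ih]
    have hc1 : ∀ z, N (B z) = l • B (N z) := fun z => DFunLike.congr_fun hNB z
    have hc2 : ∀ j z, (N ^ j) (B z) = l ^ j • B ((N ^ j) z) := by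
      intro j
      induction j with
      | zero => intro z; simp
      | succ j ih =>
        intro z
        rw [pow_succ']
        show N ((N ^ j) (B z)) = l ^ (j + 1) • B (N ((N ^ j) z))
        rw [ih, map_smul, hc1, smul_smul, pow_succ]
    have hc3 : ∀ j n z, (N ^ j) ((B ^ n) z) = (l ^ j) ^ n • (B ^ n) ((N ^ j) z) := by
      intro j n
      induction n with
      | zero => intro z; simp
      | succ n ih =>
        intro z
        rw [pow_succ' B]
        show (N ^ j) (B ((B ^ n) z)) = (l ^ j) ^ (n + 1) • B ((B ^ n) ((N ^ j) z))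
        rw [hc2, ih, map_smul, smul_smul, pow_succ, mul_comm]
    have hmem : ∀ j, (N ^ j) x ∈ F := by
      intro j
      have := hF (fun n => (l ^ j) ^ n • (N ^ j) x) ‖(N ^ j) x‖ (fun n => by
        show (B ^ n) ((l ^ j) ^ n • (N ^ j) x) = (l ^ j) ^ 0 • (N ^ j) x
        rw [map_smul, ← hc3, hBn, pow_zero, one_smul]) (Eventually.frequently (Eventually.of_forall
          fun n => by
            show ‖(l ^ j) ^ n • (N ^ j) x‖ ≤ ‖(N ^ j) x‖ * 1 ^ n
            rw [norm_smul, norm_pow, norm_pow, one_pow, mul_one]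
            exact mul_le_of_le_one_left (norm_nonneg _)
              (pow_le_one₀ (by positivity) (pow_le_one₀ (norm_nonneg _) hl))))
      simpa using this
    set E : Submodule ℂ X := Submodule.span ℂ (Set.range fun j : ℕ => (N ^ j) x) with hE
    have hEF : E ≤ F := Submodule.span_le.2 (by rintro _ ⟨j, rfl⟩; exact hmem j)
    have : FiniteDimensional ℂ E := Submodule.finiteDimensional_of_le hEF
    have hEN : ∀ z ∈ E, (N : X →ₗ[ℂ] X) z ∈ E := by
      intro z hz
      have : E ≤ E.comap (N : X →ₗ[ℂ] X) := by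
        rw [hE, Submodule.span_le]
        rintro _ ⟨j, rfl⟩
        refine Submodule.subset_span ⟨j + 1, ?_⟩
        show (N ^ (j + 1)) x = N ((N ^ j) x)
        rw [pow_succ']; rfl
      exact this hz
    have hxE : x ∈ E := Submodule.subset_span ⟨0, by simp⟩
    have : Nontrivial E := ⟨⟨⟨x, hxE⟩, 0, fun h => hx (congrArg Subtype.val h)⟩⟩
    obtain ⟨c, hc⟩ := Module.End.exists_eigenvalue ((N : X →ₗ[ℂ] X).restrict hEN)
    obtain ⟨v, hv⟩ := hc.exists_hasEigenvector
    refine ⟨c, hA.scalar hN (x := v) (fun h => hv.2 (Subtype.ext h)) ?_⟩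
    exact congrArg Subtype.val hv.apply_eq_smul
  · by_contra hcon
    push Not at hcon
    -- `N` is injective
    have hNK0 : N * K ≠ 0 := by
      intro h0
      obtain ⟨y, hy⟩ : ∃ y, K y ≠ 0 := by
        by_contra hcon
        push Not at hcon
        exact hK0 (ContinuousLinearMap.ext hcon)
      have := hA.eq_zero hN hy (DFunLike.congr_fun h0 y)
      exact hcon 0 (by rw [this, zero_smul])
    obtain ⟨a, ha, x, hx, hax⟩ := lomonosov hA (K := N * K) (hK.clm_comp N) hNK0
    set B := a * K with hB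
    have hNBx : N (B x) = x := by
      have h2 : ∀ z, a (N z) = N (a z) := fun z => DFunLike.congr_fun (hN a ha) z
      rw [← hax]
      conv_rhs => rw [← hax]
      show N (a (K (a ((N * K) x)))) = a (N (K (a ((N * K) x))))
      rw [h2]
    have hNB : N * B = l • (B * N) := by
      rw [hB, ← mul_assoc, ← hN a ha, mul_assoc, h, mul_smul_comm, mul_assoc]
    have hc1 : ∀ z, N (B z) = l • B (N z) := fun z => DFunLike.congr_fun hNB z
    have hl0 : l ≠ 0 := by
      rintro rfl
      rw [norm_zero] at hl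
      linarith
    have hj : ∀ j : ℕ, N (B ((B ^ j) x)) = l ^ j • (B ^ j) x := by
      intro j
      induction j with
      | zero => simpa using hNBx
      | succ j ih =>
        rw [pow_succ' B]
        show N (B (B ((B ^ j) x))) = l ^ (j + 1) • B ((B ^ j) x)
        rw [hc1, ih, map_smul, smul_smul, pow_succ']
    have hjne : ∀ j : ℕ, (B ^ j) x ≠ 0 := by
      intro j
      induction j with
      | zero => simpa using hx
      | succ j ih =>
        intro h0
        have h1 : B ((B ^ j) x) = 0 := by rw [pow_succ'] at h0; exact h0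
        have h2 := hj j
        rw [h1, map_zero] at h2
        exact ih ((smul_eq_zero.1 h2.symm).resolve_left (pow_ne_zero _ hl0))
    have hbd : ∀ j : ℕ, ‖l‖ ^ j ≤ ‖N * B‖ := by
      intro j
      have h1 : ‖(N * B) ((B ^ j) x)‖ ≤ ‖N * B‖ * ‖(B ^ j) x‖ := (N * B).le_opNorm _
      have h2 : (N * B) ((B ^ j) x) = l ^ j • (B ^ j) x := hj j
      rw [h2, norm_smul, norm_pow] at h1
      exact le_of_mul_le_mul_right h1 (norm_pos_iff.2 (hjne j))
    obtain ⟨j, hj2⟩ := pow_unbounded_of_one_lt ‖N * B‖ hl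
    exact absurd (hbd j) (not_le.2 hj2)

omit [CompleteSpace X] in
theorem final2 {A : Subalgebra ℂ (X →L[ℂ] X)} (hA : Trans A) {K : X →L[ℂ] X}
    (hK : IsCompactOperator K) (hK0 : K ≠ 0) {N : X →L[ℂ] X} (hN : Com A N) {c : ℂ} (hc : c ≠ 0)
    (h : N * K = K * N + c • K) : False := by
  obtain ⟨a, ha, x, hx, hax⟩ := lomonosov hA hK hK0
  set B := a * K with hB
  have hBx : B x = x := hax
  have hNB : N * B = B * N + c • B := by
    rw [hB, ← mul_assoc, ← hN a ha, mul_assoc, h, mul_add, mul_smul_comm, mul_assoc]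
  have hn : ∀ n : ℕ, N * B ^ n = B ^ n * N + ((n : ℂ) * c) • B ^ n := by
    intro n
    induction n with
    | zero => simp
    | succ n ih =>
      rw [pow_succ, ← mul_assoc, ih, add_mul, mul_assoc, hNB, mul_add, smul_mul_assoc,
        mul_smul_comm, ← mul_assoc, ← pow_succ, add_assoc, ← add_smul]
      congr 2
      push_cast
      ring
  have hBn : ∀ n : ℕ, (B ^ n) x = x := by
    intro n
    induction n with
    | zero => simp
    | succ n ih => rw [pow_succ]; show (B ^ n) (B x) = x; rw [hBx, ih]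
  have hBpos : ∀ n : ℕ, 0 < ‖B ^ n‖ := by
    intro n
    rw [norm_pos_iff]
    intro h0
    have := hBn n
    rw [h0] at this
    exact hx this.symm
  have hbd : ∀ n : ℕ, (n : ℝ) * ‖c‖ ≤ 2 * ‖N‖ := by
    intro n
    have h1 : ((n : ℂ) * c) • B ^ n = N * B ^ n - B ^ n * N := by rw [hn]; abel
    have h2 : ‖((n : ℂ) * c) • B ^ n‖ ≤ (2 * ‖N‖) * ‖B ^ n‖ := by
      rw [h1]
      calc ‖N * B ^ n - B ^ n * N‖ ≤ ‖N * B ^ n‖ + ‖B ^ n * N‖ := norm_sub_le _ _
        _ ≤ ‖N‖ * ‖B ^ n‖ + ‖B ^ n‖ * ‖N‖ := add_le_add (norm_mul_le _ _) (norm_mul_le _ _)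
        _ = (2 * ‖N‖) * ‖B ^ n‖ := by ring
    rw [norm_smul, norm_mul, Complex.norm_natCast] at h2
    exact le_of_mul_le_mul_right h2 (hBpos n)
  have hcpos : 0 < ‖c‖ := norm_pos_iff.2 hc
  obtain ⟨n, hn2⟩ := exists_nat_gt (2 * ‖N‖ / ‖c‖)
  rw [div_lt_iff₀ hcpos] at hn2
  exact absurd (hbd n) (not_le.2 hn2)

theorem final {A : Subalgebra ℂ (X →L[ℂ] X)} (hA : Trans A) {K : X →L[ℂ] X}
    (hK : IsCompactOperator K) (hK0 : K ≠ 0) {N : X →L[ℂ] X} (hN : Com A N) {l c : ℂ}
    (h : N * K = K * (l • N + c • 1)) : ∃ μ : ℂ, N = μ • 1 := by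
  by_cases hl : l = 1
  · by_cases hc : c = 0
    · refine final1 hA hK hK0 hN (l := 1) ?_
      rw [h, hl, hc, zero_smul, add_zero, one_smul, one_smul]
    · refine (final2 hA hK hK0 hN hc ?_).elim
      rw [h, hl, one_smul, mul_add, mul_smul_comm, mul_one]
  · have hl' : (1 : ℂ) - l ≠ 0 := sub_ne_zero.2 (Ne.symm hl)
    set μ : ℂ := c / (1 - l) with hμ
    have hμc : c = μ * (1 - l) := by rw [hμ, div_mul_cancel₀ _ hl']
    obtain ⟨ν, hν⟩ := final1 hA hK hK0 (N := N - μ • 1) (l := l) (fun a ha => by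
      rw [mul_sub, sub_mul, hN a ha, smul_mul_assoc, mul_smul_comm, one_mul, mul_one]) (by
      rw [sub_mul, h, mul_add, mul_sub, mul_smul_comm, mul_smul_comm, mul_smul_comm, smul_mul_assoc,
        mul_one, one_mul, smul_sub, smul_smul, add_sub_assoc, ← sub_smul, sub_eq_add_neg (l • (K * N)),
        ← neg_smul]
      congr 2
      rw [hμc]; ring)
    refine ⟨ν + μ, ?_⟩
    rw [add_smul, ← hν, sub_add_cancel]

end Pool.Agent.H499.CI
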