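import Pool.Agent.H499.CI.D

set_option autoImplicit false
open Filter Topology Metric Set

namespace Pool.Agent.H499.CI

variable {X : Type*} [NormedAddCommGroup X] [NormedSpace ℂ X]

theorem frequently_add {p : ℕ → Prop} (h : ∃ᶠ n in atTop, p n) (k : ℕ) :
    ∃ᶠ n in atTop, p (k + n) := by
  rw [frequently_atTop] at h ⊢
  intro a
  obtain ⟨b, hb, hpb⟩ := h (a + k)
  exact ⟨b - k, by omega, by rw [Nat.add_sub_cancel' (by omega)]; exact hpb⟩

theorem Com.one (A : Subalgebra ℂ (X →L[ℂ] X)) : Com A 1 := fun a _ => by rw [mul_one, one_mul]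

theorem Com.span {A : Subalgebra ℂ (X →L[ℂ] X)} {T : Set (X →L[ℂ] X)} (h : ∀ p ∈ T, Com A p) :
    ∀ p ∈ Submodule.span ℂ T, Com A p := by
  intro p hp
  induction hp using Submodule.span_induction with
  | mem x hx => exact h x hx
  | zero => intro a _; rw [mul_zero, zero_mul]
  | add x y _ _ hx hy => intro a ha; rw [mul_add, add_mul, hx a ha, hy a ha]
  | smul c x _ hx => intro a ha; rw [mul_smul_comm, smul_mul_assoc, hx a ha]

/-- linear algebra: a finite dimensional space `T` of operators containing `1`, with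
`(p ∈ T) ↦ (σ p ∈ T)` defined by `θ p = ψ (σ p)` for linear maps `ψ` (injective) and `θ`,
`θ 1 = ψ 1`; if `T` is not made of scalars then there is a nonscalar `N ∈ T` with
`θ N = ψ (l N + c)`. -/
theorem exists_eigen_mod {T : Submodule ℂ (X →L[ℂ] X)} (hfin : FiniteDimensional ℂ T)
    (h1 : (1 : X →L[ℂ] X) ∈ T) (ψ θ : (X →L[ℂ] X) →ₗ[ℂ] (X →L[ℂ] X))
    (hψ : ∀ p ∈ T, ψ p = 0 → p = 0) (hθ : ∀ p ∈ T, ∃ q ∈ T, θ p = ψ q) (h11 : θ 1 = ψ 1)
    (hns : ∃ p ∈ T, ∀ c : ℂ, p ≠ c • 1) :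
    ∃ N ∈ T, (∀ c : ℂ, N ≠ c • 1) ∧ ∃ l c : ℂ, θ N = ψ (l • N + c • 1) := by
  classical
  have hinj : Function.Injective (ψ ∘ₗ T.subtype) := by
    rw [← LinearMap.ker_eq_bot, LinearMap.ker_eq_bot']
    intro p hp
    exact Subtype.ext (hψ p p.2 hp)
  have hran : ∀ p : T, (θ ∘ₗ T.subtype) p ∈ LinearMap.range (ψ ∘ₗ T.subtype) := by
    intro p
    obtain ⟨q, hq, h⟩ := hθ p p.2
    exact ⟨⟨q, hq⟩, h.symm⟩
  set σ : T →ₗ[ℂ] T := (LinearEquiv.ofInjective _ hinj).symm.toLinearMap ∘ₗ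
    ((θ ∘ₗ T.subtype).codRestrict _ hran) with hσdef
  have hσ : ∀ p : T, ψ (σ p) = θ p := by
    intro p
    have := (LinearEquiv.ofInjective _ hinj).apply_symm_apply
      (((θ ∘ₗ T.subtype).codRestrict _ hran) p)
    exact congrArg Subtype.val this
  set e : T := ⟨1, h1⟩ with he
  have hσe : σ e = e := by
    apply hinj
    show ψ (σ e) = ψ e
    rw [hσ]
    exact h11
  set I : Submodule ℂ T := ℂ ∙ e with hI
  have hIσ : I ≤ I.comap σ := by
    rw [hI, Submodule.span_singleton_le_iff_mem, Submodule.mem_comap, hσe]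
    exact Submodule.mem_span_singleton_self e
  obtain ⟨p, hp, hpns⟩ := hns
  have hpI : (⟨p, hp⟩ : T) ∉ I := by
    intro h
    obtain ⟨c, hc⟩ := Submodule.mem_span_singleton.1 h
    exact hpns c (congrArg Subtype.val hc).symm
  have hnt : Nontrivial (T ⧸ I) := ⟨⟨I.mkQ ⟨p, hp⟩, 0, fun h => hpI (by
    rwa [Submodule.mkQ_apply, Submodule.Quotient.mk_eq_zero] at h)⟩⟩
  obtain ⟨l, hl⟩ := Module.End.exists_eigenvalue (I.mapQ I σ hIσ)
  obtain ⟨v, hv⟩ := hl.exists_hasEigenvector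
  obtain ⟨N, rfl⟩ := I.mkQ_surjective v
  have h2 : I.mkQ (σ N) = I.mkQ (l • N) := by
    have := hv.apply_eq_smul
    rw [Submodule.mkQ_apply, Submodule.mapQ_apply] at this
    rw [Submodule.mkQ_apply, this, map_smul]
    rfl
  have h3 : σ N - l • N ∈ I := by
    rw [Submodule.mkQ_apply, Submodule.mkQ_apply, Submodule.Quotient.eq] at h2
    exact h2
  obtain ⟨c, hc⟩ := Submodule.mem_span_singleton.1 h3
  refine ⟨N, N.2, fun μ hμ => hv.2 ?_, l, c, ?_⟩
  · rw [Submodule.mkQ_apply, Submodule.Quotient.mk_eq_zero, hI, Submodule.mem_span_singleton]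
    exact ⟨μ, Subtype.ext hμ.symm⟩
  · rw [← hσ]
    have h4 : σ N = l • N + c • e := by rw [hc]; abel
    rw [h4]
    rfl

variable [CompleteSpace X]

theorem main1 {A : Subalgebra ℂ (X →L[ℂ] X)} (hA : Trans A) {K : X →L[ℂ] X}
    (hK : IsCompactOperator K) (hK0 : K ≠ 0) (S : ℕ → X →L[ℂ] X) (hS : ∀ n, Com A (S n))
    (hSK : ∀ n, S n * K = K * S (n + 1)) {ρ : ℝ} (hρ : ∃ᶠ n : ℕ in atTop, ‖S n * K‖ ≤ ρ ^ n) :
    ∀ n, ∃ c : ℂ, S n = c • 1 := by
  classical
  by_contra hcon
  push Not at hcon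
  obtain ⟨n0, hn0⟩ := hcon
  obtain ⟨a, ha, x, hx, hax⟩ := lomonosov hA hK hK0
  set B := a * K with hB
  have hBc : IsCompactOperator B := hK.clm_comp a
  have hBx : B x = x := hax
  have hSB : ∀ n z, S n (B z) = B (S (n + 1) z) := by
    intro n z
    have h1 : S n * B = B * S (n + 1) := by
      rw [hB, ← mul_assoc, ← hS n a ha, mul_assoc, hSK, mul_assoc]
    exact DFunLike.congr_fun h1 z
  have hBn : ∀ n : ℕ, (B ^ n) x = x := by
    intro n
    induction n with
    | zero => simp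
    | succ n ih => rw [pow_succ]; show (B ^ n) (B x) = x; rw [hBx, ih]
  have hSBn : ∀ n k z, S k ((B ^ n) z) = (B ^ n) (S (k + n) z) := by
    intro n
    induction n with
    | zero => intro k z; simp
    | succ n ih =>
      intro k z
      rw [pow_succ']
      show S k (B ((B ^ n) z)) = B ((B ^ n) (S (k + (n + 1)) z))
      rw [hSB, ih, add_assoc, add_comm 1 n]
  set ρ' : ℝ := max |ρ| 1 with hρ'
  have hρ'0 : 0 < ρ' := lt_max_of_lt_right one_pos
  obtain ⟨F, hFf, hF⟩ := exists_fin hBc hρ'0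
  have hmem : ∀ k, S k x ∈ F := by
    intro k
    refine hF (fun n => S (k + n) x) (ρ' ^ k * (‖a‖ * ‖x‖)) (fun n => by
      show (B ^ n) (S (k + n) x) = S (k + 0) x
      rw [← hSBn, hBn, add_zero]) ?_
    refine (frequently_add hρ k).mono fun n hn => ?_
    have h1 : S (k + n) x = a ((S (k + n) * K) x) := by
      conv_lhs => rw [← hBx]
      show S (k + n) (a (K x)) = a (S (k + n) (K x))
      exact (DFunLike.congr_fun (hS (k + n) a ha) (K x)).symm
    rw [h1]
    calc ‖a ((S (k + n) * K) x)‖ ≤ ‖a‖ * (‖S (k + n) * K‖ * ‖x‖) :=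
          (a.le_opNorm _).trans (mul_le_mul_of_nonneg_left ((S (k + n) * K).le_opNorm _) (norm_nonneg _))
      _ ≤ ‖a‖ * (ρ' ^ (k + n) * ‖x‖) := by
          have : ρ ^ (k + n) ≤ ρ' ^ (k + n) :=
            (le_abs_self _).trans (by
              rw [abs_pow]
              exact pow_le_pow_left₀ (abs_nonneg _) (le_max_left _ _) _)
          have := hn.trans this
          gcongr
      _ = ρ' ^ k * (‖a‖ * ‖x‖) * ρ' ^ n := by rw [pow_add]; ring
  -- the finite dimensional space of operators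
  set T : Submodule ℂ (X →L[ℂ] X) := Submodule.span ℂ (insert 1 (Set.range S)) with hT
  have hTc : ∀ p ∈ T, Com A p := Com.span (by
    rintro p (rfl | ⟨n, rfl⟩)
    · exact Com.one A
    · exact hS n)
  have h1T : (1 : X →L[ℂ] X) ∈ T := Submodule.subset_span (Set.mem_insert _ _)
  have hST : ∀ n, S n ∈ T := fun n => Submodule.subset_span (Set.mem_insert_of_mem _ ⟨n, rfl⟩)
  have hTF : ∀ p ∈ T, p x ∈ F ⊔ ℂ ∙ x := by
    intro p hp
    induction hp using Submodule.span_induction with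
    | mem q hq =>
      rcases hq with rfl | ⟨n, rfl⟩
      · exact Submodule.mem_sup_right (Submodule.mem_span_singleton_self x)
      · exact Submodule.mem_sup_left (hmem n)
    | zero => exact Submodule.zero_mem _
    | add p q _ _ hp hq => exact Submodule.add_mem _ hp hq
    | smul c p _ hp => exact Submodule.smul_mem _ c hp
  have hfin : FiniteDimensional ℂ T := by
    let ev : T →ₗ[ℂ] (F ⊔ ℂ ∙ x : Submodule ℂ X) :=
      LinearMap.codRestrict _ ((ContinuousLinearMap.apply ℂ X x).toLinearMap ∘ₗ T.subtype)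
        fun p => hTF p p.2
    refine Module.Finite.of_injective ev ?_
    rw [← LinearMap.ker_eq_bot, LinearMap.ker_eq_bot']
    intro p hp
    exact Subtype.ext (hA.eq_zero (hTc p p.2) hx (congrArg Subtype.val hp))
  obtain ⟨N, hN, hNns, l, c, hNK⟩ := exists_eigen_mod hfin h1T (LinearMap.mulLeft ℂ K)
    (LinearMap.mulRight ℂ K) (fun p hp h => hA.eq_zero_of_mul hK0 (hTc p hp) h) (fun p hp => by
      induction hp using Submodule.span_induction with
      | mem q hq =>
        rcases hq with rfl | ⟨n, rfl⟩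
        · exact ⟨1, h1T, by simp⟩
        · exact ⟨S (n + 1), hST _, hSK n⟩
      | zero => exact ⟨0, T.zero_mem, by simp⟩
      | add p q _ _ hp hq =>
        obtain ⟨p', hp', h1⟩ := hp
        obtain ⟨q', hq', h2⟩ := hq
        exact ⟨p' + q', T.add_mem hp' hq', by rw [map_add, map_add, h1, h2]⟩
      | smul c p _ hp =>
        obtain ⟨p', hp', h1⟩ := hp
        exact ⟨c • p', T.smul_mem c hp', by rw [map_smul, map_smul, h1]⟩) (by simp)
    ⟨S n0, hST n0, hn0⟩
  obtain ⟨μ, hμ⟩ := final hA hK hK0 (hTc N hN) (l := l) (c := c) hNK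
  exact hNns μ hμ

end Pool.Agent.H499.CI
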