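import Pool.Agent.H499.CI.E

set_option autoImplicit false
open Filter Topology Metric Set

namespace Pool.Agent.H499.CI

variable {X : Type*} [NormedAddCommGroup X] [NormedSpace ℂ X]

theorem surj_of_resolvent {V : Type*} [NormedAddCommGroup V] [NormedSpace ℂ V] (T : V →L[ℂ] V)
    (h : (1 : ℂ) ∈ resolventSet ℂ T) (ψ : V) : ∃ φ, φ - T φ = ψ := by
  rw [spectrum.mem_resolventSet_iff, map_one] at h
  obtain ⟨u, hu⟩ := h
  refine ⟨(↑u⁻¹ : V →L[ℂ] V) ψ, ?_⟩
  have h1 : ((1 : V →L[ℂ] V) - T) * (↑u⁻¹ : V →L[ℂ] V) = 1 := by rw [← hu]; exact u.mul_inv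
  exact DFunLike.congr_fun h1 ψ

/-- the adjoint operator on the dual space, `φ ↦ φ ∘ B` -/
noncomputable def adj (B : X →L[ℂ] X) : (X →L[ℂ] ℂ) →L[ℂ] (X →L[ℂ] ℂ) :=
  (ContinuousLinearMap.compL ℂ X X ℂ).flip B

theorem adj_apply (B : X →L[ℂ] X) (φ : X →L[ℂ] ℂ) (x : X) : adj B φ x = φ (B x) := rfl

theorem adj_pow (B : X →L[ℂ] X) (n : ℕ) (φ : X →L[ℂ] ℂ) (x : X) :
    (adj B ^ n) φ x = φ ((B ^ n) x) := by
  induction n generalizing φ x with
  | zero => simp
  | succ n ih =>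
    rw [pow_succ', pow_succ]
    show adj B ((adj B ^ n) φ) x = φ ((B ^ n) (B x))
    rw [adj_apply, ih]

/-- Schauder's theorem: the adjoint of a compact operator is compact. -/
theorem compact_adj {B : X →L[ℂ] X} (hB : IsCompactOperator B) : IsCompactOperator (adj B) := by
  classical
  refine (isCompactOperator_iff_isCompact_closure_image_closedBall (adj B).toLinearMap one_pos).2 ?_
  refine TotallyBounded.isCompact_of_isClosed (TotallyBounded.closure ?_) isClosed_closure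
  rw [Metric.totallyBounded_iff]
  intro ε hε
  have hC : IsCompact (closure (B '' closedBall 0 1)) :=
    hB.isCompact_closure_image_of_bounded isBounded_closedBall
  obtain ⟨t0, -, ht0f, ht0⟩ := hC.finite_cover_balls (show 0 < ε / 8 by linarith)
  set t : Finset X := ht0f.toFinset with ht
  have htm : ∀ c, c ∈ t ↔ c ∈ t0 := fun c => by rw [ht, Set.Finite.mem_toFinset]
  let Φ : (X →L[ℂ] ℂ) → (t → ℂ) := fun φ i => φ i
  have hbd : Bornology.IsBounded (Φ '' closedBall 0 1) := by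
    rw [isBounded_iff_forall_norm_le]
    refine ⟨∑ i : t, ‖(i : X)‖, ?_⟩
    rintro _ ⟨φ, hφ, rfl⟩
    rw [mem_closedBall, dist_zero_right] at hφ
    rw [pi_norm_le_iff_of_nonneg (Finset.sum_nonneg fun _ _ => norm_nonneg _)]
    intro i
    calc ‖φ i‖ ≤ ‖φ‖ * ‖(i : X)‖ := φ.le_opNorm _
      _ ≤ 1 * ‖(i : X)‖ := by gcongr
      _ = ‖(i : X)‖ := one_mul _
      _ ≤ _ := Finset.single_le_sum (f := fun i : t => ‖(i : X)‖) (fun _ _ => norm_nonneg _)
          (Finset.mem_univ i)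
  have htb : TotallyBounded (Φ '' closedBall 0 1) :=
    (hbd.isCompact_closure.totallyBounded).subset subset_closure
  obtain ⟨s, hsf, hs⟩ := Metric.totallyBounded_iff.1 htb (ε / 8) (by linarith)
  let g : (t → ℂ) → (X →L[ℂ] ℂ) := fun y =>
    if h : ∃ φ ∈ closedBall (0 : X →L[ℂ] ℂ) 1, Φ φ ∈ ball y (ε / 8) then h.choose else 0
  have hg : ∀ y, (∃ φ ∈ closedBall (0 : X →L[ℂ] ℂ) 1, Φ φ ∈ ball y (ε / 8)) →
      g y ∈ closedBall (0 : X →L[ℂ] ℂ) 1 ∧ Φ (g y) ∈ ball y (ε / 8) := by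
    intro y h
    have : g y = h.choose := dif_pos h
    rw [this]
    exact h.choose_spec
  refine ⟨(fun y => adj B (g y)) '' s, hsf.image _, ?_⟩
  rintro _ ⟨φ, hφ, rfl⟩
  obtain ⟨y, hy, hφy⟩ := Set.mem_iUnion₂.1 (hs ⟨φ, hφ, rfl⟩)
  obtain ⟨h1, h2⟩ := hg y ⟨φ, hφ, hφy⟩
  refine Set.mem_iUnion₂.2 ⟨adj B (g y), ⟨y, hy, rfl⟩, ?_⟩
  rw [mem_ball, dist_eq_norm]
  set ψ := φ - g y with hψ
  have hψn : ‖ψ‖ ≤ 2 := by
    rw [mem_closedBall, dist_zero_right] at hφ h1
    calc ‖ψ‖ ≤ ‖φ‖ + ‖g y‖ := norm_sub_le _ _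
      _ ≤ 2 := by linarith
  have hψt : ∀ c ∈ t, ‖ψ c‖ ≤ ε / 4 := by
    intro c hc
    have h3 : ‖Φ φ - Φ (g y)‖ ≤ ε / 4 := by
      rw [mem_ball] at hφy h2
      rw [← dist_eq_norm]
      have := dist_triangle_right (Φ φ) (Φ (g y)) y
      linarith
    exact (norm_le_pi_norm (Φ φ - Φ (g y)) ⟨c, hc⟩).trans h3
  have h4 : adj B φ - adj B (g y) = adj B ψ := (map_sub _ _ _).symm
  have h5 : ‖adj B ψ‖ ≤ ε / 2 := by
    refine ContinuousLinearMap.opNorm_le_of_unit_norm (by linarith) fun x hx => ?_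
    rw [adj_apply]
    have h6 : B x ∈ closure (B '' closedBall 0 1) :=
      subset_closure ⟨x, by rw [mem_closedBall, dist_zero_right, hx], rfl⟩
    obtain ⟨c, hc, hxc⟩ := Set.mem_iUnion₂.1 (ht0 h6)
    rw [mem_ball, dist_eq_norm] at hxc
    calc ‖ψ (B x)‖ = ‖ψ (B x - c) + ψ c‖ := by rw [map_sub, sub_add_cancel]
      _ ≤ ‖ψ (B x - c)‖ + ‖ψ c‖ := norm_add_le _ _
      _ ≤ ‖ψ‖ * ‖B x - c‖ + ε / 4 := add_le_add (ψ.le_opNorm _) (hψt c ((htm c).2 hc))
      _ ≤ 2 * (ε / 8) + ε / 4 := by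
          have := norm_nonneg ψ
          have := norm_nonneg (B x - c)
          gcongr
      _ = ε / 2 := by ring
  have h6 : ‖adj B φ - adj B (g y)‖ < ε := by
    rw [h4]
    linarith
  exact h6

variable [CompleteSpace X]

omit [CompleteSpace X] in
/-- the fixed functional -/
theorem exists_functional {B : X →L[ℂ] X} (hB : IsCompactOperator B) {x : X} (hx : x ≠ 0)
    (h : B x = x) : ∃ φ : X →L[ℂ] ℂ, φ ≠ 0 ∧ ∀ z, φ (B z) = φ z := by
  rcases IsCompactOperator.hasEigenvalue_or_mem_resolventSet (compact_adj hB) (μ := (1 : ℂ))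
    one_ne_zero with h1 | h1
  · obtain ⟨φ, hφ⟩ := h1.exists_hasEigenvector
    refine ⟨φ, hφ.2, fun z => ?_⟩
    have h2 : adj B φ = (1 : ℂ) • φ := by simpa using hφ.apply_eq_smul
    rw [one_smul] at h2
    exact DFunLike.congr_fun h2 z
  · exfalso
    obtain ⟨ψ, -, hψ⟩ := exists_dual_vector ℂ x (norm_ne_zero_iff.2 hx)
    obtain ⟨φ, hφ⟩ := surj_of_resolvent (adj B) h1 ψ
    have h3 : ψ x = 0 := by
      rw [← hφ]
      show φ x - adj B φ x = 0
      rw [adj_apply, h, sub_self]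
    rw [h3] at hψ
    have h4 : ((‖x‖ : ℝ) : ℂ) = 0 := hψ.symm
    exact hx (norm_eq_zero.1 (Complex.ofReal_eq_zero.1 h4))

theorem main2 {A : Subalgebra ℂ (X →L[ℂ] X)} (hA : Trans A) {K : X →L[ℂ] X}
    (hK : IsCompactOperator K) (hK0 : K ≠ 0) (S : ℕ → X →L[ℂ] X) (hS : ∀ n, Com A (S n))
    (hSK : ∀ n, K * S n = S (n + 1) * K) {ρ : ℝ} (hρ : ∃ᶠ n : ℕ in atTop, ‖K * S n‖ ≤ ρ ^ n) :
    ∀ n, ∃ c : ℂ, S n = c • 1 := by
  classical
  by_contra hcon
  push Not at hcon
  obtain ⟨n0, hn0⟩ := hcon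
  obtain ⟨a, ha, x, hx, hax⟩ := lomonosov hA hK hK0
  set B := a * K with hB
  have hBc : IsCompactOperator B := hK.clm_comp a
  have hBx : B x = x := hax
  obtain ⟨φ, hφ0, hφ⟩ := exists_functional hBc hx hBx
  have hSB : ∀ n z, B (S n z) = S (n + 1) (B z) := by
    intro n z
    have h1 : B * S n = S (n + 1) * B := by
      rw [hB, mul_assoc, hSK, ← mul_assoc, hS (n + 1) a ha, mul_assoc]
    exact DFunLike.congr_fun h1 z
  have hBn : ∀ (n : ℕ) z, φ ((B ^ n) z) = φ z := by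
    intro n
    induction n with
    | zero => intro z; simp
    | succ n ih => intro z; rw [pow_succ]; show φ ((B ^ n) (B z)) = φ z; rw [ih, hφ]
  have hSBn : ∀ n k z, (B ^ n) (S k z) = S (k + n) ((B ^ n) z) := by
    intro n
    induction n with
    | zero => intro k z; simp
    | succ n ih =>
      intro k z
      rw [pow_succ']
      show B ((B ^ n) (S k z)) = S (k + (n + 1)) (B ((B ^ n) z))
      rw [ih, hSB, add_assoc]
  set ρ' : ℝ := max |ρ| 1 with hρ'
  have hρ'0 : 0 < ρ' := lt_max_of_lt_right one_pos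
  obtain ⟨F, hFf, hF⟩ := exists_fin (compact_adj hBc) hρ'0
  have hmem : ∀ k, φ ∘L S k ∈ F := by
    intro k
    refine hF (fun n => φ ∘L S (k + n)) (ρ' ^ k * (‖φ‖ * ‖a‖)) (fun n => by
      ext z
      rw [adj_pow]
      show φ (S (k + n) ((B ^ n) z)) = φ (S (k + 0) z)
      rw [← hSBn, hBn, add_zero]) ?_
    refine (frequently_add hρ k).mono fun n hn => ?_
    have h1 : φ ∘L S (k + n) = φ ∘L (a * (K * S (k + n))) := by
      ext z
      exact (hφ (S (k + n) z)).symm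
    show ‖φ ∘L S (k + n)‖ ≤ _
    rw [h1]
    calc ‖φ ∘L (a * (K * S (k + n)))‖ ≤ ‖φ‖ * (‖a‖ * ‖K * S (k + n)‖) :=
          (φ.opNorm_comp_le _).trans (mul_le_mul_of_nonneg_left (norm_mul_le _ _) (norm_nonneg _))
      _ ≤ ‖φ‖ * (‖a‖ * ρ' ^ (k + n)) := by
          have : ρ ^ (k + n) ≤ ρ' ^ (k + n) :=
            (le_abs_self _).trans (by
              rw [abs_pow]
              exact pow_le_pow_left₀ (abs_nonneg _) (le_max_left _ _) _)
          have := hn.trans this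
          gcongr
      _ = ρ' ^ k * (‖φ‖ * ‖a‖) * ρ' ^ n := by rw [pow_add]; ring
  -- the finite dimensional space of operators
  set T : Submodule ℂ (X →L[ℂ] X) := Submodule.span ℂ (insert 1 (Set.range S)) with hT
  have hTc : ∀ p ∈ T, Com A p := Com.span (by
    rintro p (rfl | ⟨n, rfl⟩)
    · exact Com.one A
    · exact hS n)
  have h1T : (1 : X →L[ℂ] X) ∈ T := Submodule.subset_span (Set.mem_insert _ _)
  have hST : ∀ n, S n ∈ T := fun n => Submodule.subset_span (Set.mem_insert_of_mem _ ⟨n, rfl⟩)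
  have hTF : ∀ p ∈ T, φ ∘L p ∈ F ⊔ ℂ ∙ φ := by
    intro p hp
    induction hp using Submodule.span_induction with
    | mem q hq =>
      rcases hq with rfl | ⟨n, rfl⟩
      · exact Submodule.mem_sup_right (Submodule.mem_span_singleton_self φ)
      · exact Submodule.mem_sup_left (hmem n)
    | zero => rw [ContinuousLinearMap.comp_zero]; exact Submodule.zero_mem _
    | add p q _ _ hp hq => rw [ContinuousLinearMap.comp_add]; exact Submodule.add_mem _ hp hq
    | smul c p _ hp => rw [ContinuousLinearMap.comp_smul]; exact Submodule.smul_mem _ c hp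
  -- `p ↦ φ ∘ p` is injective
  have hinj : ∀ p, Com A p → φ ∘L p = 0 → p = 0 := by
    intro p hp h0
    set M : Submodule ℂ X := (LinearMap.range (p : X →ₗ[ℂ] X)).topologicalClosure with hM
    have hMinv : ∀ b ∈ A, ∀ z ∈ M, b z ∈ M := by
      intro b hb z hz
      have h1 : MapsTo b ((LinearMap.range (p : X →ₗ[ℂ] X)) : Set X)
          ((LinearMap.range (p : X →ₗ[ℂ] X)) : Set X) := by
        rintro _ ⟨w, rfl⟩
        exact ⟨b w, (DFunLike.congr_fun (hp b hb) w).symm⟩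
      exact h1.closure b.continuous hz
    have hMφ : ∀ z ∈ M, φ z = 0 := by
      intro z hz
      have h1 : M ≤ LinearMap.ker (φ : X →ₗ[ℂ] ℂ) := by
        refine Submodule.topologicalClosure_minimal _ ?_ φ.isClosed_ker
        rintro _ ⟨w, rfl⟩
        exact DFunLike.congr_fun h0 w
      exact h1 hz
    rcases hA M (Submodule.isClosed_topologicalClosure _) hMinv with h1 | h1
    · ext z
      have : p z ∈ M := Submodule.le_topologicalClosure _ ⟨z, rfl⟩
      rw [h1, Submodule.mem_bot] at this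
      exact this
    · exfalso
      apply hφ0
      ext z
      exact hMφ z (by rw [h1]; trivial)
  have hfin : FiniteDimensional ℂ T := by
    let ev : T →ₗ[ℂ] (F ⊔ ℂ ∙ φ : Submodule ℂ (X →L[ℂ] ℂ)) :=
      LinearMap.codRestrict _ ((ContinuousLinearMap.compL ℂ X X ℂ φ).toLinearMap ∘ₗ T.subtype)
        fun p => hTF p p.2
    refine Module.Finite.of_injective ev ((injective_iff_map_eq_zero ev).2 ?_)
    intro p hp
    exact Subtype.ext (hinj p (hTc p p.2) (congrArg Subtype.val hp))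
  obtain ⟨y, hy⟩ : ∃ y, K y ≠ 0 := by
    by_contra hcon
    push Not at hcon
    exact hK0 (ContinuousLinearMap.ext hcon)
  obtain ⟨N, hN, hNns, l, c, hNK⟩ := exists_eigen_mod hfin h1T (LinearMap.mulRight ℂ K)
    (LinearMap.mulLeft ℂ K) (fun p hp h => hA.eq_zero (hTc p hp) hy (DFunLike.congr_fun h y))
    (fun p hp => by
      induction hp using Submodule.span_induction with
      | mem q hq =>
        rcases hq with rfl | ⟨n, rfl⟩
        · exact ⟨1, h1T, by simp⟩
        · exact ⟨S (n + 1), hST _, hSK n⟩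
      | zero => exact ⟨0, T.zero_mem, by simp⟩
      | add p q _ _ hp hq =>
        obtain ⟨p', hp', h1⟩ := hp
        obtain ⟨q', hq', h2⟩ := hq
        exact ⟨p' + q', T.add_mem hp' hq', by rw [map_add, map_add, h1, h2]⟩
      | smul c p _ hp =>
        obtain ⟨p', hp', h1⟩ := hp
        exact ⟨c • p', T.smul_mem c hp', by rw [map_smul, map_smul, h1]⟩) (by simp)
    ⟨S n0, hST n0, hn0⟩
  have hNK' : K * N = l • (N * K) + c • K := by
    have : K * N = (l • N + c • 1) * K := hNK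
    rw [this, add_mul, smul_mul_assoc, smul_mul_assoc, one_mul]
  by_cases hl : l = 0
  · have h1 : K * (N - c • 1) = 0 := by
      rw [mul_sub, hNK', hl, zero_smul, zero_add, mul_smul_comm, mul_one, sub_self]
    have h2 := hA.eq_zero_of_mul hK0 (p := N - c • 1) (fun b hb => by
      rw [mul_sub, sub_mul, hTc N hN b hb, smul_mul_assoc, mul_smul_comm, one_mul, mul_one]) h1
    exact hNns c (sub_eq_zero.1 h2)
  · obtain ⟨μ, hμ⟩ := final hA hK hK0 (hTc N hN) (l := l⁻¹) (c := -(l⁻¹ * c)) (by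
      rw [mul_add, mul_smul_comm, hNK', smul_add, smul_smul, smul_smul, inv_mul_cancel₀ hl, one_smul,
        mul_smul_comm, mul_one, neg_smul, add_neg_cancel_right])
    exact hNns μ hμ

end Pool.Agent.H499.CI
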